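import Pool.Agent.H6.FI.TargetsB
import Pool.Agent.H6.FI.Lib

/-!
# Characters of central products
-/

set_option autoImplicit false
set_option linter.unusedSectionVars false

open scoped Classical ComplexConjugate

open FI AMc AMt

namespace Pool.Agent.H55.FI

section

variable {Γ : Type} [Group Γ] [Fintype Γ]

/-- a character over a linear character of a central subgroup -/
theorem central_val (h1 : T_ABL) {Z M : Subgroup Γ} (hZM : Z ≤ M)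
    (hc : ∀ z ∈ Z, ∀ g ∈ M, z * g = g * z) {ν φ : Γ → ℂ} (hν : ν ∈ IrrS Z) (hφ : φ ∈ Ab M ν) :
    (∀ z ∈ Z, φ z = φ 1 * ν z) ∧ ∀ z ∈ Z, ∀ m ∈ M, φ (m * z) = ν z * φ m := by
  have hν1 : ν 1 = 1 := (h1 Γ Z (fun a ha b hb => hc a ha b (hZM hb)) ν hν).1
  have hn : ∀ u ∈ M, ∀ g ∈ Z, u * g * u⁻¹ = g := by
    intro u hu g hg
    rw [← hc g hg u hu, mul_inv_cancel_right]
  obtain ⟨d, hd, hd1⟩ := (FI.Lib.lS1 Γ M φ hφ.1).2.2.1
  have hφ0 : φ 1 ≠ 0 := by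
    rw [hd1]
    exact_mod_cast hd.ne'
  have hM : (Nat.card M : ℂ) ≠ 0 := by exact_mod_cast Nat.card_pos.ne'
  have hz : ∀ z ∈ Z, φ z = φ 1 * ν z := by
    obtain ⟨a, t, _, _, _, h4, _, h6⟩ := FI.Lib.lE3 Γ Z M hZM
      (fun u hu g hg => by rw [hn u hu g hg]; exact hg) φ hφ.1 ν hν hφ.2
    intro z hz
    have h7 := h6 z hz
    have h8 : ∑ u : M, ν ((u : Γ) * z * (u : Γ)⁻¹) = (Nat.card M : ℂ) * ν z := by
      rw [Finset.sum_congr rfl (fun u _ => by rw [hn u u.2 z hz])]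
      rw [Finset.sum_const, Finset.card_univ, nsmul_eq_mul, Nat.card_eq_fintype_card]
    rw [h8] at h7
    rw [hν1, mul_one] at h4
    have h9 : (Nat.card M : ℂ) * φ z = (Nat.card M : ℂ) * (φ 1 * ν z) := by
      rw [h7, h4]
      ring
    exact mul_left_cancel₀ hM h9
  refine ⟨hz, fun z hzZ m hm => ?_⟩
  have hirr := (FI.Lib.lS1 Γ M φ hφ.1).2.2.2.2.2
  have h2 := (FI.Lib.lSC M (fun n => φ n) hirr (fun n => φ n) hirr ⟨z, hZM hzZ⟩ ⟨m, hm⟩).2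
  have h3 : ∑ a : M, φ ((a * ⟨z, hZM hzZ⟩ * a⁻¹ * ⟨m, hm⟩ : M) : Γ) =
      (Nat.card M : ℂ) * φ (m * z) := by
    have : ∀ a : M, φ ((a * ⟨z, hZM hzZ⟩ * a⁻¹ * ⟨m, hm⟩ : M) : Γ) = φ (m * z) := by
      intro a
      change φ ((a : Γ) * z * (a : Γ)⁻¹ * m) = φ (m * z)
      rw [hn a a.2 z hzZ, hc z hzZ m hm]
    rw [Finset.sum_congr rfl (fun a _ => this a)]
    rw [Finset.sum_const, Finset.card_univ, nsmul_eq_mul, Nat.card_eq_fintype_card]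
  rw [h3] at h2
  change (Nat.card M : ℂ) * φ (m * z) = (Nat.card M : ℂ) / φ ((1 : M) : Γ) * φ z * φ m at h2
  rw [OneMemClass.coe_one, hz z hzZ] at h2
  have h4 : (Nat.card M : ℂ) * φ (m * z) = (Nat.card M : ℂ) * (ν z * φ m) := by
    rw [h2]
    field_simp
  exact mul_left_cancel₀ hM h4

/-- a central product -/
structure CPd (Z M C : Subgroup Γ) : Prop where
  sup : M ⊔ C = ⊤
  inf : M ⊓ C = Z
  com : ∀ m ∈ M, ∀ c ∈ C, m * c = c * m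

variable {Z M C : Subgroup Γ}

theorem CPd.leM (h : CPd Z M C) : Z ≤ M := h.inf ▸ inf_le_left

theorem CPd.leC (h : CPd Z M C) : Z ≤ C := h.inf ▸ inf_le_right

theorem CPd.cenM (h : CPd Z M C) : ∀ z ∈ Z, ∀ g ∈ M, z * g = g * z :=
  fun z hz g hg => (h.com g hg z (h.leC hz)).symm

theorem CPd.cenC (h : CPd Z M C) : ∀ z ∈ Z, ∀ g ∈ C, z * g = g * z :=
  fun z hz g hg => h.com z (h.leM hz) g hg

theorem CPd.ex (h : CPd Z M C) (g : Γ) : ∃ m ∈ M, ∃ c ∈ C, m * c = g := by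
  let P : Subgroup Γ :=
    { carrier := {g | ∃ m ∈ M, ∃ c ∈ C, m * c = g}
      mul_mem' := by
        rintro a b ⟨m, hm, c, hc, rfl⟩ ⟨m', hm', c', hc', rfl⟩
        refine ⟨m * m', M.mul_mem hm hm', c * c', C.mul_mem hc hc', ?_⟩
        rw [mul_assoc m m', ← mul_assoc m' c, h.com m' hm' c hc]
        group
      one_mem' := ⟨1, M.one_mem, 1, C.one_mem, mul_one 1⟩
      inv_mem' := by
        rintro a ⟨m, hm, c, hc, rfl⟩
        refine ⟨m⁻¹, M.inv_mem hm, c⁻¹, C.inv_mem hc, ?_⟩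
        rw [mul_inv_rev, h.com _ (M.inv_mem hm) _ (C.inv_mem hc)] }
  have h1 : M ⊔ C ≤ P := sup_le (fun m hm => ⟨m, hm, 1, C.one_mem, mul_one m⟩)
    (fun c hc => ⟨1, M.one_mem, c, hc, one_mul c⟩)
  rw [h.sup] at h1
  exact h1 (Subgroup.mem_top g)

theorem CPd.cen (h : CPd Z M C) : ∀ z ∈ Z, ∀ g, z * g = g * z := by
  intro z hz g
  obtain ⟨m, hm, c, hc, rfl⟩ := h.ex g
  rw [← mul_assoc, h.cenM z hz m hm, mul_assoc, h.cenC z hz c hc, mul_assoc]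

theorem CPd.nor (h : CPd Z M C) : M.Normal := by
  refine ⟨fun n hn g => ?_⟩
  obtain ⟨m, hm, c, hc, rfl⟩ := h.ex g
  have e : m * c * n * (m * c)⁻¹ = m * n * m⁻¹ := by
    rw [mul_assoc m c n, ← h.com n hn c hc]
    group
  rw [e]
  exact M.mul_mem (M.mul_mem hm hn) (M.inv_mem hm)

theorem CPd.idx (h : CPd Z M C) : Z.relIndex ⊤ = Z.relIndex M * Z.relIndex C := by
  have := h.nor
  rw [← Subgroup.relIndex_mul_relIndex Z M ⊤ h.leM le_top, ← h.sup, sup_comm,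
    Subgroup.relIndex_sup_right, ← Subgroup.inf_relIndex_right M C, h.inf]

/-- the product of two functions on a central product -/
noncomputable def cp (M C : Subgroup Γ) (φ ψ : Γ → ℂ) : Γ → ℂ := fun g =>
  if h : ∃ p : Γ × Γ, p.1 ∈ M ∧ p.2 ∈ C ∧ p.1 * p.2 = g then φ h.choose.1 * ψ h.choose.2 else 0

theorem cp_mul (h1 : T_ABL) (h : CPd Z M C) {ν φ ψ : Γ → ℂ} (hν : ν ∈ IrrS Z)
    (hφ : φ ∈ Ab M ν) (hψ : ψ ∈ Ab C ν) {m c : Γ} (hm : m ∈ M) (hc : c ∈ C) :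
    cp M C φ ψ (m * c) = φ m * ψ c := by
  have hex : ∃ p : Γ × Γ, p.1 ∈ M ∧ p.2 ∈ C ∧ p.1 * p.2 = m * c := ⟨(m, c), hm, hc, rfl⟩
  rw [cp, dif_pos hex]
  obtain ⟨e1, e2, e3⟩ := hex.choose_spec
  generalize hex.choose = p at e1 e2 e3
  obtain ⟨m', c'⟩ := p
  change φ m' * ψ c' = φ m * ψ c
  change m' ∈ M at e1
  change c' ∈ C at e2
  change m' * c' = m * c at e3
  have hz : m⁻¹ * m' = c * c'⁻¹ := by
    rw [eq_mul_inv_iff_mul_eq, mul_assoc, e3]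
    group
  have hzZ : m⁻¹ * m' ∈ Z := by
    rw [← h.inf]
    refine ⟨M.mul_mem (M.inv_mem hm) e1, ?_⟩
    rw [hz]
    exact C.mul_mem hc (C.inv_mem e2)
  have hm' : m' = m * (m⁻¹ * m') := by group
  have hc' : c' = c * (m⁻¹ * m')⁻¹ := by
    rw [← h.cenC _ (Z.inv_mem hzZ) c hc, hz]
    group
  have v1 := (central_val h1 h.leM h.cenM hν hφ).2 _ hzZ m hm
  have v2 := (central_val h1 h.leC h.cenC hν hψ).2 _ (Z.inv_mem hzZ) c hc
  have hlin := h1 Γ Z (fun a ha b hb => h.cenM a ha b (h.leM hb)) ν hν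
  have v3 : ν (m⁻¹ * m') * ν (m⁻¹ * m')⁻¹ = 1 := by
    rw [← hlin.2 _ hzZ _ (Z.inv_mem hzZ), mul_inv_cancel, hlin.1]
  rw [← hm'] at v1
  rw [← hc'] at v2
  rw [v1, v2]
  linear_combination φ m * ψ c * v3

/-- the product is irreducible and lies over `ν` -/
theorem cp_mem (h1 : T_ABL) (h : CPd Z M C) {ν φ ψ : Γ → ℂ} (hν : ν ∈ IrrS Z)
    (hφ : φ ∈ Ab M ν) (hψ : ψ ∈ Ab C ν) : cp M C φ ψ ∈ Ab ⊤ ν := by
  obtain ⟨-, -, ⟨d, hd, hd1⟩, -, charM, irrM⟩ := FI.Lib.lS1 Γ M φ hφ.1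
  obtain ⟨-, -, ⟨d', hd', hd1'⟩, -, charC, irrC⟩ := FI.Lib.lS1 Γ C ψ hψ.1
  let π : M × C →* Γ := MonoidHom.mk' (fun p => (p.1 : Γ) * (p.2 : Γ)) (by
    rintro ⟨a, b⟩ ⟨a', b'⟩
    change ((a * a' : M) : Γ) * ((b * b' : C) : Γ) = (a : Γ) * b * ((a' : Γ) * b')
    rw [Subgroup.coe_mul, Subgroup.coe_mul, mul_assoc (a : Γ) a', ← mul_assoc (a' : Γ) b,
      h.com a' a'.2 b b.2]
    group)
  have hπ : Function.Surjective π := by
    intro g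
    obtain ⟨m, hm, c, hc, rfl⟩ := h.ex g
    exact ⟨(⟨m, hm⟩, ⟨c, hc⟩), rfl⟩
  have hval : (fun p : M × C => cp M C φ ψ (π p)) = fun p => φ p.1 * ψ p.2 := by
    funext p
    exact cp_mul h1 h hν hφ hψ p.1.2 p.2.2
  have hch : IsChar (M × C) (fun p : M × C => φ p.1 * ψ p.2) := by
    have a1 := FI.Lib.lA4.2.1 (M × C) M (MonoidHom.fst M C) _ charM
    have a2 := FI.Lib.lA4.2.1 (M × C) C (MonoidHom.snd M C) _ charC
    exact FI.Lib.lA4.1 (M × C) _ _ a1 a2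
  have nM := FI.Lib.lA1 M _ _ irrM irrM
  have nC := FI.Lib.lA1 C _ _ irrC irrC
  rw [if_pos rfl] at nM nC
  have hnorm : ∑ p : M × C, (φ p.1 * ψ p.2) * conj (φ p.1 * ψ p.2) =
      (Nat.card (M × C) : ℂ) := by
    rw [Fintype.sum_prod_type, Nat.card_prod, Nat.cast_mul, ← nM, ← nC, Finset.sum_mul_sum]
    apply Finset.sum_congr rfl
    intro m _
    apply Finset.sum_congr rfl
    intro c _
    rw [map_mul]
    ring
  have hirr : (fun p : M × C => φ p.1 * ψ p.2) ∈ Irr (M × C) :=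
    (FI.Lib.lA3 (M × C)).2.2.2 _ hch hnorm
  have hX : cp M C φ ψ ∈ Irr Γ := by
    rw [(FI.Lib.lQI (M × C) Γ π hπ).1, hval]
    exact hirr
  have hXS : cp M C φ ψ ∈ IrrS (⊤ : Subgroup Γ) := by
    apply FI.Lib.lS10 Γ ⊤
    · intro g hg
      exact absurd (Subgroup.mem_top g) hg
    · exact FI.Lib.lA4.2.1 (⊤ : Subgroup Γ) Γ (Subgroup.subtype ⊤) _
        ((FI.Lib.lA3 Γ).1 _ hX).1
    · have := FI.Lib.lA1 Γ _ _ hX hX
      rw [if_pos rfl] at this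
      rw [this, Subgroup.card_top]
  refine ⟨hXS, ?_⟩
  -- over `ν`
  have hνS := FI.Lib.lS1 Γ Z ν hν
  have hsum : ∑ g : Γ, cp M C φ ψ g * starRingEnd ℂ (ν g) =
      φ 1 * ψ 1 * ∑ g : Γ, ν g * starRingEnd ℂ (ν g) := by
    rw [Finset.mul_sum]
    apply Finset.sum_congr rfl
    intro g _
    by_cases hg : g ∈ Z
    · have e1 := cp_mul h1 h hν hφ hψ (h.leM hg) C.one_mem
      rw [mul_one] at e1
      rw [e1, (central_val h1 h.leM h.cenM hν hφ).1 g hg]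
      ring
    · rw [hνS.1 g hg]
      simp
  have hνn := FI.Lib.lS2 Γ Z ν ν hν hν
  rw [if_pos rfl] at hνn
  rw [Over, hsum, hνn, hd1, hd1']
  have hZ : (Nat.card Z : ℂ) ≠ 0 := by exact_mod_cast Nat.card_pos.ne'
  exact mul_ne_zero (mul_ne_zero (by exact_mod_cast hd.ne') (by exact_mod_cast hd'.ne')) hZ

/-- proportional irreducible characters are equal -/
theorem eq_of_prop {N : Subgroup Γ} {φ φ' : Γ → ℂ} (hφ : φ ∈ IrrS N) (hφ' : φ' ∈ IrrS N)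
    (h : ∀ g ∈ N, φ g * φ' 1 = φ' g * φ 1) : φ = φ' := by
  by_contra hne
  obtain ⟨s1, -, ⟨d, hd, hd1⟩, -⟩ := FI.Lib.lS1 Γ N φ hφ
  obtain ⟨s1', -, ⟨d', hd', hd1'⟩, -⟩ := FI.Lib.lS1 Γ N φ' hφ'
  have e1 := FI.Lib.lS2 Γ N φ φ' hφ hφ'
  have e2 := FI.Lib.lS2 Γ N φ' φ' hφ' hφ'
  rw [if_neg hne] at e1
  rw [if_pos rfl] at e2
  have e3 : (∑ g, φ g * conj (φ' g)) * φ' 1 = φ 1 * ∑ g, φ' g * conj (φ' g) := by
    rw [Finset.sum_mul, Finset.mul_sum]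
    apply Finset.sum_congr rfl
    intro g _
    by_cases hg : g ∈ N
    · linear_combination conj (φ' g) * h g hg
    · rw [s1 g hg, s1' g hg]
      simp
  rw [e1, e2, zero_mul, hd1] at e3
  have hN : (Nat.card N : ℂ) ≠ 0 := by exact_mod_cast Nat.card_pos.ne'
  exact mul_ne_zero (by exact_mod_cast hd.ne') hN e3.symm

theorem cp_inj (h1 : T_ABL) (h : CPd Z M C) {ν φ ψ φ' ψ' : Γ → ℂ} (hν : ν ∈ IrrS Z)
    (hφ : φ ∈ Ab M ν) (hψ : ψ ∈ Ab C ν) (hφ' : φ' ∈ Ab M ν) (hψ' : ψ' ∈ Ab C ν)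
    (he : cp M C φ ψ = cp M C φ' ψ') : φ = φ' ∧ ψ = ψ' := by
  have hv : ∀ m ∈ M, ∀ c ∈ C, φ m * ψ c = φ' m * ψ' c := by
    intro m hm c hc
    rw [← cp_mul h1 h hν hφ hψ hm hc, ← cp_mul h1 h hν hφ' hψ' hm hc, he]
  obtain ⟨d, hd, hd1⟩ := (FI.Lib.lS1 Γ M φ hφ.1).2.2.1
  obtain ⟨e, he, he1⟩ := (FI.Lib.lS1 Γ C ψ hψ.1).2.2.1
  have hd0 : φ 1 ≠ 0 := by
    rw [hd1]
    exact_mod_cast hd.ne'
  have he0 : ψ 1 ≠ 0 := by
    rw [he1]
    exact_mod_cast he.ne'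
  have v11 := hv 1 M.one_mem 1 C.one_mem
  constructor
  · apply eq_of_prop hφ.1 hφ'.1
    intro g hg
    have v := hv g hg 1 C.one_mem
    have : (φ g * φ' 1) * ψ 1 = (φ' g * φ 1) * ψ 1 := by
      linear_combination φ' 1 * v - φ' g * v11
    exact mul_right_cancel₀ he0 this
  · apply eq_of_prop hψ.1 hψ'.1
    intro g hg
    have v := hv 1 M.one_mem g hg
    have : (ψ g * ψ' 1) * φ 1 = (ψ' g * ψ 1) * φ 1 := by
      linear_combination ψ' 1 * v - ψ' g * v11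
    exact mul_right_cancel₀ hd0 this

theorem Ab_finite (U : Subgroup Γ) (θ : Γ → ℂ) : (Ab U θ).Finite := by
  obtain ⟨fs, hfs, -⟩ := FI.Lib.lS9 Γ U
  apply (fs.finite_toSet).subset
  intro χ hχ
  exact (hfs χ).2 hχ.1

end

theorem pf_CPR (h1 : T_ABL) (h2 : T_SSQ) : T_CPR := by
  intro Γ _ _ Z M C hsup hinf hcom ν hν
  have h : CPd Z M C := ⟨hsup, hinf, hcom⟩
  have fT := Ab_finite (⊤ : Subgroup Γ) ν
  have fM := Ab_finite M ν
  have fC := Ab_finite C ν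
  have hT := h2 Γ Z ⊤ le_top (fun z hz g _ => h.cen z hz g) ν hν
  have hM := h2 Γ Z M h.leM h.cenM ν hν
  have hC := h2 Γ Z C h.leC h.cenC ν hν
  rw [finsum_mem_eq_finite_toFinset_sum _ fT] at hT
  rw [finsum_mem_eq_finite_toFinset_sum _ fM] at hM
  rw [finsum_mem_eq_finite_toFinset_sum _ fC] at hC
  have mT : ∀ χ, χ ∈ fT.toFinset ↔ χ ∈ Ab ⊤ ν := fun χ => fT.mem_toFinset
  have mM : ∀ χ, χ ∈ fM.toFinset ↔ χ ∈ Ab M ν := fun χ => fM.mem_toFinset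
  have mC : ∀ χ, χ ∈ fC.toFinset ↔ χ ∈ Ab C ν := fun χ => fC.mem_toFinset
  let F : (Γ → ℂ) × (Γ → ℂ) → (Γ → ℂ) := fun p => cp M C p.1 p.2
  have hF1 : ∀ p ∈ fM.toFinset ×ˢ fC.toFinset, F p 1 = p.1 1 * p.2 1 := by
    intro p hp
    rw [Finset.mem_product, mM, mC] at hp
    have := cp_mul h1 h hν hp.1 hp.2 M.one_mem C.one_mem
    rw [mul_one] at this
    exact this
  have hinj : Set.InjOn F (fM.toFinset ×ˢ fC.toFinset : Finset _) := by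
    intro p hp q hq he
    rw [Finset.mem_coe, Finset.mem_product, mM, mC] at hp hq
    obtain ⟨e1, e2⟩ := cp_inj h1 h hν hp.1 hp.2 hq.1 hq.2 he
    exact Prod.ext e1 e2
  have hsub : (fM.toFinset ×ˢ fC.toFinset).image F ⊆ fT.toFinset := by
    intro χ hχ
    obtain ⟨p, hp, rfl⟩ := Finset.mem_image.1 hχ
    rw [Finset.mem_product, mM, mC] at hp
    rw [mT]
    exact cp_mem h1 h hν hp.1 hp.2
  have hsq : ∑ χ ∈ (fM.toFinset ×ˢ fC.toFinset).image F, χ 1 * χ 1 =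
      ∑ χ ∈ fT.toFinset, χ 1 * χ 1 := by
    rw [Finset.sum_image hinj, hT, h.idx, Nat.cast_mul, ← hM, ← hC, Finset.sum_mul_sum,
      Finset.sum_product]
    apply Finset.sum_congr rfl
    intro φ hφ
    apply Finset.sum_congr rfl
    intro ψ hψ
    rw [hF1 (φ, ψ) (Finset.mem_product.2 ⟨hφ, hψ⟩)]
    ring
  have hdeg : ∀ χ ∈ fT.toFinset, 0 < (χ 1 * χ 1).re := by
    intro χ hχ
    obtain ⟨d, hd, hd1⟩ := (FI.Lib.lS1 Γ ⊤ χ ((mT χ).1 hχ).1).2.2.1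
    rw [hd1, ← Nat.cast_mul, Complex.natCast_re]
    exact_mod_cast Nat.mul_pos hd hd
  have himg : (fM.toFinset ×ˢ fC.toFinset).image F = fT.toFinset := by
    by_contra hne
    have hss : (fM.toFinset ×ˢ fC.toFinset).image F ⊂ fT.toFinset := hsub.ssubset_of_ne hne
    obtain ⟨χ, hχ, hχ'⟩ := Finset.exists_of_ssubset hss
    have h3 := congrArg Complex.re hsq
    rw [Complex.re_sum, Complex.re_sum] at h3
    have h4 : ∑ χ ∈ (fM.toFinset ×ˢ fC.toFinset).image F, (χ 1 * χ 1).re <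
        ∑ χ ∈ fT.toFinset, (χ 1 * χ 1).re :=
      Finset.sum_lt_sum_of_subset hsub hχ hχ' (hdeg χ hχ) (fun χ hχ _ => (hdeg χ hχ).le)
    exact h4.ne h3
  constructor
  · rw [kk, kk, kk, Set.ncard_eq_toFinset_card _ fT, Set.ncard_eq_toFinset_card _ fM,
      Set.ncard_eq_toFinset_card _ fC, ← himg, Finset.card_image_of_injOn hinj,
      Finset.card_product]
  · rw [dd, dd, dd, finsum_mem_eq_finite_toFinset_sum _ fT,
      finsum_mem_eq_finite_toFinset_sum _ fM, finsum_mem_eq_finite_toFinset_sum _ fC, ← himg,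
      Finset.sum_image hinj, Finset.sum_mul_sum, Finset.sum_product]
    apply Finset.sum_congr rfl
    intro φ hφ
    apply Finset.sum_congr rfl
    intro ψ hψ
    rw [hF1 (φ, ψ) (Finset.mem_product.2 ⟨hφ, hψ⟩)]
    obtain ⟨d, hd, hd1⟩ := (FI.Lib.lS1 Γ M φ ((mM φ).1 hφ).1).2.2.1
    obtain ⟨e, he, he1⟩ := (FI.Lib.lS1 Γ C ψ ((mC ψ).1 hψ).1).2.2.1
    change (φ 1 * ψ 1).re = (φ 1).re * (ψ 1).re
    rw [hd1, he1, ← Nat.cast_mul, Complex.natCast_re, Complex.natCast_re, Complex.natCast_re,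
      Nat.cast_mul]

end Pool.Agent.H55.FI
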