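import Pool.Agent.H6.FI.TargetsA

/-!
# Passing to a faithful action
-/

set_option autoImplicit false

open FI

namespace Pool.Agent.H55.FI

section

variable {R V : Type} [Group R] [AddCommGroup V] (ρ : R →* AddMonoid.End V)

theorem Ck_top : Ck ρ ⊤ = ρ.ker := by
  ext r
  rw [mem_Ck, MonoidHom.mem_ker]
  constructor
  · intro h
    ext w
    exact h w (AddSubgroup.mem_top w)
  · intro h w _
    rw [h]
    rfl

/-- the induced faithful action -/
def fth : R ⧸ ρ.ker →* AddMonoid.End V := QuotientGroup.lift ρ.ker ρ le_rfl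

theorem fth_mk (r : R) : fth ρ (QuotientGroup.mk' ρ.ker r) = ρ r := rfl

theorem fth_injective : Function.Injective (fth ρ) := by
  intro a b
  obtain ⟨x, rfl⟩ := QuotientGroup.mk'_surjective ρ.ker a
  obtain ⟨y, rfl⟩ := QuotientGroup.mk'_surjective ρ.ker b
  intro h
  rw [fth_mk, fth_mk] at h
  rw [QuotientGroup.mk'_apply, QuotientGroup.mk'_apply, QuotientGroup.eq, MonoidHom.mem_ker,
    map_mul, ← h, ← map_mul, inv_mul_cancel, map_one]

/-- the map of the coset spaces -/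
def cs (H' : Subgroup (R ⧸ ρ.ker)) :
    R ⧸ (H'.comap (QuotientGroup.mk' ρ.ker)) → (R ⧸ ρ.ker) ⧸ H' :=
  Quotient.lift (fun r : R => ((QuotientGroup.mk' ρ.ker r : R ⧸ ρ.ker) : (R ⧸ ρ.ker) ⧸ H')) (by
    intro a b hab
    have h1 : a⁻¹ * b ∈ H'.comap (QuotientGroup.mk' ρ.ker) := QuotientGroup.leftRel_apply.1 hab
    rw [Subgroup.mem_comap, map_mul, map_inv] at h1
    exact QuotientGroup.eq.2 h1)

theorem cs_mk (H' : Subgroup (R ⧸ ρ.ker)) (r : R) :
    cs ρ H' (r : R ⧸ (H'.comap (QuotientGroup.mk' ρ.ker))) =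
      ((QuotientGroup.mk' ρ.ker r : R ⧸ ρ.ker) : (R ⧸ ρ.ker) ⧸ H') := rfl

theorem cs_injective (H' : Subgroup (R ⧸ ρ.ker)) : Function.Injective (cs ρ H') := by
  intro a b
  obtain ⟨x, rfl⟩ := QuotientGroup.mk_surjective a
  obtain ⟨y, rfl⟩ := QuotientGroup.mk_surjective b
  intro h
  rw [cs_mk, cs_mk, QuotientGroup.eq, ← map_inv, ← map_mul] at h
  exact QuotientGroup.eq.2 h

theorem cs_surjective (H' : Subgroup (R ⧸ ρ.ker)) : Function.Surjective (cs ρ H') := by
  intro a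
  obtain ⟨x, rfl⟩ := QuotientGroup.mk_surjective a
  obtain ⟨y, rfl⟩ := QuotientGroup.mk'_surjective ρ.ker x
  exact ⟨(y : R ⧸ (H'.comap (QuotientGroup.mk' ρ.ker))), rfl⟩

theorem cs_smul (H' : Subgroup (R ⧸ ρ.ker)) (r : R)
    (c : R ⧸ (H'.comap (QuotientGroup.mk' ρ.ker))) :
    cs ρ H' (r • c) = (QuotientGroup.mk' ρ.ker r) • cs ρ H' c := by
  obtain ⟨x, rfl⟩ := QuotientGroup.mk_surjective c
  rfl

end

theorem pf_FTH : T_FTH := by
  intro R V _ _ _ _ ρ hsol hq
  refine ⟨R ⧸ ρ.ker, inferInstance, inferInstance, fth ρ, inferInstance, ⟨⟨hq.1.1, ?_⟩, ?_⟩,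
    fth_injective ρ, ?_, ?_⟩
  · intro W hW
    apply hq.1.2 W
    intro r _ w hw
    exact hW (QuotientGroup.mk' ρ.ker r) (Subgroup.mem_top _) w hw
  · intro H' W' hI
    refine hq.2 (H'.comap (QuotientGroup.mk' ρ.ker)) (fun c => W' (cs ρ H' c)) ⟨?_, ?_, ?_, ?_⟩
    · intro h
      apply hI.ne
      rw [eq_top_iff]
      intro x _
      obtain ⟨y, rfl⟩ := QuotientGroup.mk'_surjective ρ.ker x
      have h1 : y ∈ H'.comap (QuotientGroup.mk' ρ.ker) := by
        rw [h]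
        exact Subgroup.mem_top y
      exact h1
    · intro r c w hw
      rw [cs_smul]
      exact hI.perm (QuotientGroup.mk' ρ.ker r) (cs ρ H' c) w hw
    · exact hI.ind.comp (cs_injective ρ H')
    · rw [← hI.sup]
      exact (cs_surjective ρ H').iSup_comp W'
  · rw [Ck_top, Subgroup.index_eq_card]
  · intro x
    have h1 : St ρ x = (St (fth ρ) x).comap (QuotientGroup.mk' ρ.ker) := rfl
    rw [h1, Subgroup.index_comap_of_surjective _ (QuotientGroup.mk'_surjective ρ.ker)]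

end Pool.Agent.H55.FI
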